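import Pool.Agent.Helper17.RZ.St4

/-! RZ-D1: invariant functions on the charts. -/

set_option autoImplicit false

open MvPolynomial

namespace Pool.Agent.Helper30.RZ

open Pool.Agent.Helper17.RZ

universe u

section

variable (k : Type u) [Field k]

/-! ### The action on the letters -/

theorem sb_lt (e : Fin 4 → Bool × Bool) (s : Fin 4) (c : Fin 5) :
    sb k e (lt k s c) = ((lsg (e s) c : ℤ) : SS k) * lt k s c := by
  rcases h : e s with ⟨p, q⟩
  cases p <;> cases q <;> fin_cases c <;>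
    simp [lt, lsg, sb_X, h] <;> ring

theorem sb_fw (e : Fin 4 → Bool × Bool) (w : Fin 4 → Fin 5) :
    sb k e (fw k w) = ((∏ s, lsg (e s) (w s) : ℤ) : SS k) * fw k w := by
  rw [fw, map_prod]
  simp only [sb_lt]
  rw [Finset.prod_mul_distrib]
  push_cast
  rfl

theorem sb_fw_good (a : Fin 4) (w : GW) : sb k (code a) (fw k w.1) = fw k w.1 := by
  rw [sb_fw, w.2 a]
  simp

/-! ### Degrees -/

theorem lt_hom (s : Fin 4) (c : Fin 5) : IsWeightedHomogeneous wt (lt k s c) (Pi.single s 4) := by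
  have hx : IsWeightedHomogeneous wt (X (s, false) : SS k) (Pi.single s 1) :=
    isWeightedHomogeneous_X k wt (s, false)
  have hy : IsWeightedHomogeneous wt (X (s, true) : SS k) (Pi.single s 1) :=
    isWeightedHomogeneous_X k wt (s, true)
  have e2 : (2 : ℕ) • (Pi.single s 1 : Fin 4 → ℕ) = Pi.single s 2 := by
    rw [← Pi.single_smul]; rfl
  have hx2 : IsWeightedHomogeneous wt (X (s, false) ^ 2 : SS k) (Pi.single s 2) := by
    rw [← e2]; exact hx.pow 2
  have hy2 : IsWeightedHomogeneous wt (X (s, true) ^ 2 : SS k) (Pi.single s 2) := by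
    rw [← e2]; exact hy.pow 2
  have hxy : IsWeightedHomogeneous wt (X (s, false) * X (s, true) : SS k) (Pi.single s 2) := by
    have : (Pi.single s 2 : Fin 4 → ℕ) = Pi.single s 1 + Pi.single s 1 := by
      rw [← Pi.single_add]
    rw [this]; exact hx.mul hy
  have hp : IsWeightedHomogeneous wt (X (s, false) ^ 2 + X (s, true) ^ 2 : SS k) (Pi.single s 2) :=
    hx2.add hy2
  have hm : IsWeightedHomogeneous wt (X (s, false) ^ 2 - X (s, true) ^ 2 : SS k) (Pi.single s 2) :=
    hx2.sub hy2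
  have e4 : (Pi.single s 4 : Fin 4 → ℕ) = Pi.single s 2 + Pi.single s 2 := by
    rw [← Pi.single_add]
  fin_cases c
  · show IsWeightedHomogeneous wt ((X (s, false) ^ 2 + X (s, true) ^ 2) ^ 2 : SS k) _
    rw [e4, pow_two]; exact hp.mul hp
  · rw [e4]; exact hx2.mul hy2
  · rw [e4]; exact hp.mul hxy
  · rw [e4]; exact hp.mul hm
  · rw [e4]; exact hxy.mul hm

theorem fw_hom (w : Fin 4 → Fin 5) : IsWeightedHomogeneous wt (fw k w) (fun _ => 4) := by
  have h1 : (fun _ => 4 : Fin 4 → ℕ) = ∑ s : Fin 4, Pi.single s 4 := by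
    rw [Finset.univ_sum_single]
  rw [h1]
  exact IsWeightedHomogeneous.prod _ _ _ fun s _ => lt_hom k s (w s)

theorem fs_hom (σ : Finset GW) : IsWeightedHomogeneous wt (fs k σ) (fun _ => 4 * σ.card) := by
  have h1 : (fun _ => 4 * σ.card : Fin 4 → ℕ) = ∑ w ∈ σ, (fun _ => 4 : Fin 4 → ℕ) := by
    funext s
    simp [mul_comm]
  rw [h1]
  exact IsWeightedHomogeneous.prod _ _ _ fun w _ => fw_hom k w.1

theorem fs_ne_zero (σ : Finset GW) : fs k σ ≠ 0 :=
  Finset.prod_ne_zero_iff.mpr fun w _ => fw_ne_zero k w.1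

theorem sb_fs (a : Fin 4) (σ : Finset GW) : sb k (code a) (fs k σ) = fs k σ := by
  rw [fs, map_prod]
  exact Finset.prod_congr rfl fun w _ => sb_fw_good k a w

/-! ### Forms in two variables -/

/-- homogeneous forms in `x_s, y_s` -/
noncomputable def Hs (s : Fin 4) (t : ℕ) : Submodule k (SS k) :=
  Submodule.span k {P | ∃ i j, i + j = t ∧ P = X (s, false) ^ i * X (s, true) ^ j}

/-- the span of the letters -/
noncomputable def Us (s : Fin 4) : Submodule k (SS k) := Submodule.span k (Set.range (lt k s))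

/-- the span of the letters `a`, `b` -/
noncomputable def Bs (s : Fin 4) : Submodule k (SS k) := Submodule.span k {lt k s 0, lt k s 1}

theorem lt_mem_Us (s : Fin 4) (c : Fin 5) : lt k s c ∈ Us k s := Submodule.subset_span ⟨c, rfl⟩

theorem mon_mem_Hs (s : Fin 4) (i j t : ℕ) (h : i + j = t) :
    (X (s, false) ^ i * X (s, true) ^ j : SS k) ∈ Hs k s t :=
  Submodule.subset_span ⟨i, j, h, rfl⟩

theorem Hs_four (h2 : (2 : k) ≠ 0) (s : Fin 4) : Hs k s 4 ≤ Us k s := by
  rw [Hs, Submodule.span_le]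
  rintro P ⟨i, j, hij, rfl⟩
  have h2' : (C (2⁻¹ : k) * 2 : SS k) = 1 := by
    rw [show (2 : SS k) = C 2 from rfl, ← C_mul, inv_mul_cancel₀ h2, C_1]
  have key : ∀ (c0 c1 c2 c3 c4 : k) (P : SS k), C c0 * lt k s 0 + C c1 * lt k s 1 +
      C c2 * lt k s 2 + C c3 * lt k s 3 + C c4 * lt k s 4 = P → P ∈ Us k s := by
    intro c0 c1 c2 c3 c4 P hP
    rw [← hP]
    have hm : ∀ (c : k) (i : Fin 5), C c * lt k s i ∈ Us k s := by
      intro c i
      rw [← smul_eq_C_mul]
      exact (Us k s).smul_mem c (lt_mem_Us k s i)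
    exact add_mem (add_mem (add_mem (add_mem (hm _ _) (hm _ _)) (hm _ _)) (hm _ _)) (hm _ _)
  have hi : i = 0 ∨ i = 1 ∨ i = 2 ∨ i = 3 ∨ i = 4 := by omega
  rcases hi with rfl | rfl | rfl | rfl | rfl
  · obtain rfl : j = 4 := by omega
    refine key 2⁻¹ (-1) 0 (-2⁻¹) 0 _ ?_
    simp only [lt, Matrix.cons_val, C_neg, C_0, C_1]
    linear_combination (X (s, true) ^ 4 + X (s, true) ^ 2 * X (s, false) ^ 2) * h2'
  · obtain rfl : j = 3 := by omega
    refine key 0 0 2⁻¹ 0 (-2⁻¹) _ ?_
    simp only [lt, Matrix.cons_val, C_neg, C_0]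
    linear_combination (X (s, false) * X (s, true) ^ 3) * h2'
  · obtain rfl : j = 2 := by omega
    exact lt_mem_Us k s 1
  · obtain rfl : j = 1 := by omega
    refine key 0 0 2⁻¹ 0 2⁻¹ _ ?_
    simp only [lt, Matrix.cons_val, C_0]
    linear_combination (X (s, false) ^ 3 * X (s, true)) * h2'
  · obtain rfl : j = 0 := by omega
    refine key 2⁻¹ (-1) 0 2⁻¹ 0 _ ?_
    simp only [lt, Matrix.cons_val, C_neg, C_0, C_1]
    linear_combination (X (s, false) ^ 4 + X (s, true) ^ 2 * X (s, false) ^ 2) * h2'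

theorem Hs_step (s : Fin 4) (t : ℕ) (ht : 7 ≤ t) : Hs k s t ≤ Bs k s * Hs k s (t - 4) := by
  rw [Hs, Submodule.span_le]
  rintro P ⟨i, j, hij, rfl⟩
  have ha : lt k s 0 ∈ Bs k s := Submodule.subset_span (Or.inl rfl)
  have hb : lt k s 1 ∈ Bs k s := Submodule.subset_span (Or.inr rfl)
  have hn2 : -2 * lt k s 1 ∈ Bs k s := by
    have := (Bs k s).smul_mem (-2) hb
    rwa [smul_eq_C_mul, C_neg] at this
  have hn1 : -lt k s 1 ∈ Bs k s := neg_mem hb
  by_cases hi : 2 ≤ i
  · by_cases hj : 2 ≤ j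
    · obtain ⟨i, rfl⟩ := Nat.exists_eq_add_of_le hi
      obtain ⟨j, rfl⟩ := Nat.exists_eq_add_of_le hj
      have h1 := Submodule.mul_mem_mul hb (mon_mem_Hs k s i j (t - 4) (by omega))
      have h2 : lt k s 1 * (X (s, false) ^ i * X (s, true) ^ j) =
          X (s, false) ^ (2 + i) * X (s, true) ^ (2 + j) := by
        simp only [lt, Matrix.cons_val]
        ring
      rw [h2] at h1
      exact h1
    · obtain ⟨i, rfl⟩ := Nat.exists_eq_add_of_le (show 6 ≤ i by omega)
      have h1 := Submodule.mul_mem_mul ha (mon_mem_Hs k s (i + 2) j (t - 4) (by omega))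
      have h2 := Submodule.mul_mem_mul hn2 (mon_mem_Hs k s (i + 2) j (t - 4) (by omega))
      have h3 := Submodule.mul_mem_mul hn1 (mon_mem_Hs k s i (j + 2) (t - 4) (by omega))
      have h4 := add_mem (add_mem h1 h2) h3
      have h5 : lt k s 0 * (X (s, false) ^ (i + 2) * X (s, true) ^ j) +
          -2 * lt k s 1 * (X (s, false) ^ (i + 2) * X (s, true) ^ j) +
          -lt k s 1 * (X (s, false) ^ i * X (s, true) ^ (j + 2)) =
          X (s, false) ^ (6 + i) * X (s, true) ^ j := by
        simp only [lt, Matrix.cons_val]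
        ring
      rw [h5] at h4
      exact h4
  · obtain ⟨j, rfl⟩ := Nat.exists_eq_add_of_le (show 6 ≤ j by omega)
    have h1 := Submodule.mul_mem_mul ha (mon_mem_Hs k s i (j + 2) (t - 4) (by omega))
    have h2 := Submodule.mul_mem_mul hn2 (mon_mem_Hs k s i (j + 2) (t - 4) (by omega))
    have h3 := Submodule.mul_mem_mul hn1 (mon_mem_Hs k s (i + 2) j (t - 4) (by omega))
    have h4 := add_mem (add_mem h1 h2) h3
    have h5 : lt k s 0 * (X (s, false) ^ i * X (s, true) ^ (j + 2)) +
        -2 * lt k s 1 * (X (s, false) ^ i * X (s, true) ^ (j + 2)) +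
        -lt k s 1 * (X (s, false) ^ (i + 2) * X (s, true) ^ j) =
        X (s, false) ^ i * X (s, true) ^ (6 + j) := by
      simp only [lt, Matrix.cons_val]
      ring
    rw [h5] at h4
    exact h4

theorem Hs_mul_four (h2 : (2 : k) ≠ 0) (s : Fin 4) (m : ℕ) :
    Hs k s (4 * (m + 1)) ≤ Us k s * Bs k s ^ m := by
  induction m with
  | zero => simpa using Hs_four k h2 s
  | succ m ih =>
    refine (Hs_step k s _ (by omega)).trans ?_
    rw [show 4 * (m + 1 + 1) - 4 = 4 * (m + 1) by omega, pow_succ]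
    calc Bs k s * Hs k s (4 * (m + 1)) ≤ Bs k s * (Us k s * Bs k s ^ m) :=
          mul_le_mul_right ih _
      _ = Us k s * (Bs k s ^ m * Bs k s) := by ring

/-- the span of the good forms -/
noncomputable def VV : Submodule k (SS k) := Submodule.span k (Set.range fun w : GW => fw k w.1)

/-- the span of the forms of all words -/
noncomputable def UA : Submodule k (SS k) := Submodule.span k (Set.range fun w => fw k w)

theorem weight_wt (d : Fin 4 × Bool →₀ ℕ) (s : Fin 4) :
    Finsupp.weight wt d s = d (s, false) + d (s, true) := by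
  rw [Finsupp.weight_eq_sum, Finset.sum_apply, Fintype.sum_prod_type]
  rw [Finset.sum_eq_single s]
  · simp [wt, add_comm]
  · intro b _ hb
    simp [wt, Pi.single_eq_of_ne (Ne.symm hb)]
  · intro h; exact absurd (Finset.mem_univ s) h

theorem hom_le (f : Fin 4 → ℕ) :
    weightedHomogeneousSubmodule k wt f ≤ ∏ s, Hs k s (f s) := by
  intro g hg
  rw [mem_weightedHomogeneousSubmodule] at hg
  rw [← support_sum_monomial_coeff g]
  refine Submodule.sum_mem _ fun d hd => ?_
  have hw : Finsupp.weight wt d = f := hg (mem_support_iff.mp hd)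
  have h1 : monomial d (coeff d g) = (coeff d g) • (∏ s, (X (s, false) ^ d (s, false) *
      X (s, true) ^ d (s, true)) : SS k) := by
    rw [monomial_eq, smul_eq_C_mul]
    congr 1
    rw [Finsupp.prod_fintype _ _ (by intro i; simp), Fintype.prod_prod_type]
    refine Finset.prod_congr rfl fun s _ => ?_
    rw [Fintype.prod_bool, mul_comm]
  rw [h1]
  refine Submodule.smul_mem _ _ ?_
  have h2 : ∀ s, (X (s, false) ^ d (s, false) * X (s, true) ^ d (s, true) : SS k) ∈
      Hs k s (f s) := fun s => mon_mem_Hs k s _ _ _ (by rw [← weight_wt, hw])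
  rw [Fin.prod_univ_four, Fin.prod_univ_four]
  exact Submodule.mul_mem_mul (Submodule.mul_mem_mul (Submodule.mul_mem_mul (h2 0) (h2 1)) (h2 2))
    (h2 3)

theorem prod_Us : ∏ s, Us k s ≤ UA k := by
  rw [Fin.prod_univ_four]
  simp only [Us, Submodule.span_mul_span]
  apply Submodule.span_mono
  rintro P ⟨P1, ⟨P2, ⟨P3, ⟨c0, rfl⟩, P4, ⟨c1, rfl⟩, rfl⟩, P5, ⟨c2, rfl⟩, rfl⟩, P6, ⟨c3, rfl⟩, rfl⟩
  refine ⟨![c0, c1, c2, c3], ?_⟩
  simp [fw, Fin.prod_univ_four]

theorem good_ab (c : Fin 4 → Fin 2) : Good (fun s => (c s).castLE (by norm_num)) := by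
  revert c
  decide

theorem prod_Bs : ∏ s, Bs k s ≤ VV k := by
  have hB : ∀ s, Bs k s = Submodule.span k (Set.range fun c : Fin 2 => lt k s (c.castLE (by norm_num)))
      := by
    intro s
    rw [Bs]
    congr 1
    ext P
    simp only [Set.mem_insert_iff, Set.mem_singleton_iff, Set.mem_range, Fin.exists_fin_two]
    constructor
    · rintro (rfl | rfl)
      · exact Or.inl rfl
      · exact Or.inr rfl
    · rintro (rfl | rfl)
      · exact Or.inl rfl
      · exact Or.inr rfl
  rw [Fin.prod_univ_four]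
  simp only [hB, Submodule.span_mul_span]
  apply Submodule.span_mono
  rintro P ⟨P1, ⟨P2, ⟨P3, ⟨c0, rfl⟩, P4, ⟨c1, rfl⟩, rfl⟩, P5, ⟨c2, rfl⟩, rfl⟩, P6, ⟨c3, rfl⟩, rfl⟩
  refine ⟨⟨_, good_ab ![c0, c1, c2, c3]⟩, ?_⟩
  simp [fw, Fin.prod_univ_four]

theorem hom_le_mul (h2 : (2 : k) ≠ 0) (m : ℕ) :
    weightedHomogeneousSubmodule k wt (fun _ : Fin 4 => 4 * (m + 1)) ≤ UA k * VV k ^ m := by
  refine (hom_le k _).trans ?_
  calc ∏ s, Hs k s (4 * (m + 1)) ≤ ∏ s, (Us k s * Bs k s ^ m) :=
        Finset.prod_le_prod' fun s _ => Hs_mul_four k h2 s m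
    _ = (∏ s, Us k s) * (∏ s, Bs k s) ^ m := by
        rw [Finset.prod_mul_distrib, Finset.prod_pow]
    _ ≤ UA k * VV k ^ m := mul_le_mul' (prod_Us k) (pow_le_pow_left' (prod_Bs k) m)

/-! ### Averaging -/

/-- averaging over one generator -/
noncomputable def avg (a : Fin 4) : SS k →ₗ[k] SS k :=
  (2 : k)⁻¹ • (LinearMap.id + (sb k (code a)).toLinearMap)

theorem avg_fix (h2 : (2 : k) ≠ 0) (a : Fin 4) (g : SS k) (hg : sb k (code a) g = g) :
    avg k a g = g := by
  rw [avg, LinearMap.smul_apply, LinearMap.add_apply, LinearMap.id_apply,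
    AlgHom.toLinearMap_apply, hg, ← two_smul k g, smul_smul, inv_mul_cancel₀ h2, one_smul]

theorem avg_mul (a : Fin 4) (g v : SS k) (hv : sb k (code a) v = v) :
    avg k a (g * v) = avg k a g * v := by
  simp only [avg, LinearMap.smul_apply, LinearMap.add_apply, LinearMap.id_apply,
    AlgHom.toLinearMap_apply, map_mul, hv]
  rw [smul_mul_assoc, add_mul]

/-- averaging over the group -/
noncomputable def avgs : SS k →ₗ[k] SS k := avg k 0 ∘ₗ avg k 1 ∘ₗ avg k 2 ∘ₗ avg k 3

theorem avg_fw (a : Fin 4) (w : Fin 4 → Fin 5) :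
    avg k a (fw k w) = ((2 : k)⁻¹ * (1 + ((∏ s, lsg (code a s) (w s) : ℤ) : k))) • fw k w := by
  simp only [avg, LinearMap.smul_apply, LinearMap.add_apply, LinearMap.id_apply,
    AlgHom.toLinearMap_apply, sb_fw]
  rw [mul_smul, add_smul, one_smul]
  congr 2
  rw [smul_eq_C_mul, map_intCast]

theorem prod_lsg (a : Fin 4) (w : Fin 4 → Fin 5) :
    ∏ s, lsg (code a s) (w s) = 1 ∨ ∏ s, lsg (code a s) (w s) = -1 := by
  have h : ∀ (e : Bool × Bool) (c : Fin 5), lsg e c = 1 ∨ lsg e c = -1 := by decide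
  rw [Fin.prod_univ_four]
  rcases h (code a 0) (w 0) with h0 | h0 <;> rcases h (code a 1) (w 1) with h1 | h1 <;>
  rcases h (code a 2) (w 2) with h2 | h2 <;> rcases h (code a 3) (w 3) with h3 | h3 <;>
  simp [h0, h1, h2, h3]

theorem avgs_fw_mem (w : Fin 4 → Fin 5) : avgs k (fw k w) ∈ VV k := by
  by_cases hw : Good w
  · have h1 : ∃ c : k, avgs k (fw k w) = c • fw k w := by
      obtain ⟨e, he⟩ : ∃ e : Fin 4 → k, ∀ a, avg k a (fw k w) = e a • fw k w :=
        ⟨_, fun a => avg_fw k a w⟩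
      refine ⟨e 3 * e 2 * e 1 * e 0, ?_⟩
      simp only [avgs, LinearMap.comp_apply, he, map_smul, smul_smul]
    obtain ⟨c, hc⟩ := h1
    rw [hc]
    exact (VV k).smul_mem c (Submodule.subset_span ⟨⟨w, hw⟩, rfl⟩)
  · rw [Good, not_forall] at hw
    obtain ⟨a, ha⟩ := hw
    have h1 := (prod_lsg a w).resolve_left ha
    have h2 : avg k a (fw k w) = 0 := by
      rw [avg_fw, h1]
      simp
    have h3 : avgs k (fw k w) = 0 := by
      simp only [avgs, LinearMap.comp_apply]
      fin_cases a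
      · simp only [avg_fw k 1, avg_fw k 2, avg_fw k 3, map_smul]
        simp only [Fin.zero_eta] at h2
        rw [h2]; simp
      · simp only [avg_fw k 2, avg_fw k 3, map_smul]
        simp only [Fin.mk_one] at h2
        rw [h2]; simp
      · simp only [avg_fw k 3, map_smul]
        have h2' : avg k 2 (fw k w) = 0 := h2
        rw [h2']; simp
      · have h2' : avg k 3 (fw k w) = 0 := h2
        rw [h2']; simp
    rw [h3]
    exact zero_mem _

theorem avgs_UA (g : SS k) (hg : g ∈ UA k) : avgs k g ∈ VV k := by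
  induction hg using Submodule.span_induction with
  | mem x hx =>
    obtain ⟨w, rfl⟩ := hx
    exact avgs_fw_mem k w
  | zero => rw [map_zero]; exact zero_mem _
  | add x y _ _ hx hy => rw [map_add]; exact add_mem hx hy
  | smul c x _ hx => rw [map_smul]; exact (VV k).smul_mem c hx

theorem sb_VV (a : Fin 4) (v : SS k) (hv : v ∈ VV k) : sb k (code a) v = v := by
  induction hv using Submodule.span_induction with
  | mem x hx =>
    obtain ⟨w, rfl⟩ := hx
    exact sb_fw_good k a w
  | zero => rw [map_zero]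
  | add x y _ _ hx hy => rw [map_add, hx, hy]
  | smul c x _ hx => rw [map_smul, hx]

theorem sb_VV_pow (a : Fin 4) (m : ℕ) (v : SS k) (hv : v ∈ VV k ^ m) : sb k (code a) v = v := by
  induction m generalizing v with
  | zero =>
    rw [pow_zero, Submodule.mem_one] at hv
    obtain ⟨c, rfl⟩ := hv
    exact AlgHom.commutes _ c
  | succ m ih =>
    rw [pow_succ] at hv
    induction hv using Submodule.mul_induction_on' with
    | mem_mul_mem x hx y hy => rw [map_mul, ih x hx, sb_VV k a y hy]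
    | add x _ y _ hx hy => rw [map_add, hx, hy]

theorem claim (h2 : (2 : k) ≠ 0) (m : ℕ) (g : SS k)
    (hg : IsWeightedHomogeneous wt g (fun _ : Fin 4 => 4 * (m + 1)))
    (hinv : ∀ a, sb k (code a) g = g) : g ∈ VV k ^ (m + 1) := by
  have h1 : g ∈ UA k * VV k ^ m := hom_le_mul k h2 m hg
  have h3 : avgs k g = g := by
    simp only [avgs, LinearMap.comp_apply]
    rw [avg_fix k h2 3 g (hinv 3), avg_fix k h2 2 g (hinv 2), avg_fix k h2 1 g (hinv 1),
      avg_fix k h2 0 g (hinv 0)]
  rw [← h3]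
  clear h3 hinv hg
  induction h1 using Submodule.mul_induction_on' with
  | mem_mul_mem x hx y hy =>
    have h4 : avgs k (x * y) = avgs k x * y := by
      simp only [avgs, LinearMap.comp_apply]
      rw [avg_mul k 3 _ _ (sb_VV_pow k 3 m y hy), avg_mul k 2 _ _ (sb_VV_pow k 2 m y hy),
        avg_mul k 1 _ _ (sb_VV_pow k 1 m y hy), avg_mul k 0 _ _ (sb_VV_pow k 0 m y hy)]
    rw [h4, pow_succ']
    exact Submodule.mul_mem_mul (avgs_UA k x hx) hy
  | add x _ y _ hx hy => rw [map_add]; exact add_mem hx hy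

/-! ### The theorem -/

theorem HD_zero_mul {x y : LL k} (hx : x ∈ HD k (fun _ => 0)) (hy : y ∈ HD k (fun _ => 0)) :
    x * y ∈ HD k (fun _ => 0) := by
  obtain ⟨g, h, e, e', hh, hg1, hh1, hd, rfl⟩ := hx
  obtain ⟨g', h', f, f', hh', hg1', hh1', hd', rfl⟩ := hy
  refine ⟨g * g', h * h', e + f, e' + f', mul_ne_zero hh hh', hg1.mul hg1', hh1.mul hh1', ?_, ?_⟩
  · intro s
    have h1 : (e s : ℤ) - e' s = 0 := hd s
    have h2 : (f s : ℤ) - f' s = 0 := hd' s
    show (((e + f) s : ℕ) : ℤ) - (((e' + f') s : ℕ) : ℤ) = 0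
    simp only [Pi.add_apply]
    push_cast
    omega
  · rw [map_mul, map_mul, div_mul_div_comm]

theorem HD_zero_algebraMap (c : k) : algebraMap k (LL k) c ∈ HD k (fun _ => 0) := by
  refine ⟨C c, 1, 0, 0, one_ne_zero, isWeightedHomogeneous_C wt c, isWeightedHomogeneous_one k wt,
    fun s => by simp, ?_⟩
  rw [map_one, div_one, ← algebraMap_eq, ← IsScalarTower.algebraMap_apply k (SS k) (LL k)]

theorem easy (σ : Finset GW) (y : K0 k) (hy : y ∈ (ZZ k).A σ) :
    (y : LL k) ∈ HD k (fun _ => 0) ∧ (y : LL k) ∈ Dn k (fs k σ) ∧ ∀ a, ga k a (y : LL k) = y := by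
  induction hy using Algebra.adjoin_induction with
  | mem x hx =>
    obtain ⟨i, hi, j, rfl⟩ := hx
    have h1 : ((((ZZ k).a j / (ZZ k).a i : K0 k)) : LL k) = al k (fw k j.1) / al k (fw k i.1) :=
      aa_div k j i
    rw [h1]
    refine ⟨⟨_, _, _, _, fw_ne_zero k i.1, fw_hom k j.1, fw_hom k i.1, fun s => by simp, rfl⟩, ?_, ?_⟩
    · refine ⟨1, fw k j.1 * ∏ w ∈ σ.erase i, fw k w.1, ?_⟩
      have h2 : fs k σ = fw k i.1 * ∏ w ∈ σ.erase i, fw k w.1 := by
        rw [fs, Finset.mul_prod_erase σ (fun w => fw k w.1) hi]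
      have h3 := al_ne_zero k (fw_ne_zero k i.1)
      rw [pow_one, h2, map_mul, map_mul]
      field_simp
    · intro a
      rw [map_div₀]
      have h4 : ∀ P : SS k, ga k a (al k P) = al k (sb k (code a) P) := ga_algebraMap k a
      rw [h4, h4, sb_fw_good, sb_fw_good]
  | algebraMap r =>
    refine ⟨HD_zero_algebraMap k r, (Dn k (fs k σ)).algebraMap_mem r, fun a => ?_⟩
    exact AlgEquiv.commutes _ r
  | add x y _ _ hx hy =>
    refine ⟨add_mem hx.1 hy.1, add_mem hx.2.1 hy.2.1, fun a => ?_⟩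
    show ga k a ((x : LL k) + (y : LL k)) = (x : LL k) + (y : LL k)
    rw [map_add, hx.2.2 a, hy.2.2 a]
  | mul x y _ _ hx hy =>
    refine ⟨HD_zero_mul k hx.1 hy.1, mul_mem hx.2.1 hy.2.1, fun a => ?_⟩
    show ga k a ((x : LL k) * (y : LL k)) = (x : LL k) * (y : LL k)
    rw [map_mul, hx.2.2 a, hy.2.2 a]

theorem al_add (x y : SS k) : al k (x + y) = al k x + al k y := map_add _ _ _

theorem al_mul (x y : SS k) : al k (x * y) = al k x * al k y := map_mul _ _ _

theorem al_zero : al k 0 = 0 := map_zero _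

theorem al_one : al k 1 = 1 := map_one _

theorem al_smul (c : k) (x : SS k) : al k (c • x) = c • al k x := by
  rw [Algebra.smul_def, al_mul, Algebra.smul_def]
  congr 1

/-- the elements of the function field in the chart -/
noncomputable def ZA (σ : Finset GW) : Subalgebra k (LL k) :=
  ((ZZ k).A σ).map (K0 k).val

theorem mem_ZA (σ : Finset GW) (x : LL k) : x ∈ ZA k σ ↔ ∃ y ∈ (ZZ k).A σ, (y : LL k) = x := by
  rw [ZA, Subalgebra.mem_map]
  rfl

theorem quot_mem (σ : Finset GW) (v w : GW) (hw : w ∈ σ) :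
    al k (fw k v.1) / al k (fw k w.1) ∈ ZA k σ := by
  rw [mem_ZA]
  exact ⟨aa k v / aa k w, Algebra.subset_adjoin ⟨w, hw, v, rfl⟩, aa_div k v w⟩

theorem quot_VV (σ : Finset GW) (w : GW) (hw : w ∈ σ) (g : SS k) (hg : g ∈ VV k) :
    al k g / al k (fw k w.1) ∈ ZA k σ := by
  induction hg using Submodule.span_induction with
  | mem x hx =>
    obtain ⟨v, rfl⟩ := hx
    exact quot_mem k σ v w hw
  | zero => rw [al_zero, zero_div]; exact zero_mem _
  | add x y _ _ hx hy => rw [al_add, add_div]; exact add_mem hx hy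
  | smul c x _ hx =>
    rw [al_smul, smul_div_assoc]
    exact Subalgebra.smul_mem _ hx c

theorem quot_VV_pow (σ : Finset GW) (w : GW) (hw : w ∈ σ) (N : ℕ) (g : SS k)
    (hg : g ∈ VV k ^ N) : al k g / al k (fw k w.1) ^ N ∈ ZA k σ := by
  induction N generalizing g with
  | zero =>
    rw [pow_zero, Submodule.mem_one] at hg
    obtain ⟨c, rfl⟩ := hg
    rw [pow_zero, div_one]
    have : al k (algebraMap k (SS k) c) = algebraMap k (LL k) c :=
      (IsScalarTower.algebraMap_apply k (SS k) (LL k) c).symm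
    rw [this]
    exact (ZA k σ).algebraMap_mem c
  | succ N ih =>
    rw [pow_succ] at hg
    induction hg using Submodule.mul_induction_on' with
    | mem_mul_mem x hx y hy =>
      rw [al_mul, pow_succ, mul_div_mul_comm]
      exact mul_mem (ih x hx) (quot_VV k σ w hw y hy)
    | add x _ y _ hx hy => rw [al_add, add_div]; exact add_mem hx hy

theorem quot_fs (σ τ : Finset GW) (hτ : τ ⊆ σ) (N : ℕ) (g : SS k)
    (hg : g ∈ VV k ^ (N * τ.card)) : al k g / al k (fs k τ) ^ N ∈ ZA k σ := by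
  classical
  induction τ using Finset.induction_on generalizing g with
  | empty =>
    rw [Finset.card_empty, mul_zero, pow_zero, Submodule.mem_one] at hg
    obtain ⟨c, rfl⟩ := hg
    have h1 : fs k ∅ = 1 := by simp [fs]
    rw [h1, al_one, one_pow, div_one]
    have : al k (algebraMap k (SS k) c) = algebraMap k (LL k) c :=
      (IsScalarTower.algebraMap_apply k (SS k) (LL k) c).symm
    rw [this]
    exact (ZA k σ).algebraMap_mem c
  | insert w τ hw ih =>
    have h1 : fs k (insert w τ) = fs k τ * fw k w.1 := by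
      rw [fs, Finset.prod_insert hw, mul_comm]; rfl
    rw [Finset.card_insert_of_notMem hw, mul_add, mul_one, pow_add] at hg
    induction hg using Submodule.mul_induction_on' with
    | mem_mul_mem x hx y hy =>
      rw [al_mul, h1, al_mul, mul_pow, mul_div_mul_comm]
      exact mul_mem (ih ((Finset.subset_insert w τ).trans hτ) x hx)
        (quot_VV_pow k σ w (hτ (Finset.mem_insert_self w τ)) N y hy)
    | add x _ y _ hx hy => rw [al_add, add_div]; exact add_mem hx hy

end

theorem invThm (hN : HomNum.{u}) : InvThm.{u} := by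
  intro k _ h2 σ hσ x
  constructor
  · rintro ⟨h1, h3, h4⟩
    rw [← mem_ZA]
    obtain ⟨N, g, f, hMN, hg, hf, hx⟩ := hN k (fs k σ) (fun _ => 4 * σ.card) (fs_ne_zero k σ)
      (fs_hom k σ) (fun _ => 0) x h1 h3 1
    rcases hf with rfl | hf
    · exact zero_mem _
    have hne := al_ne_zero k (fs_ne_zero k σ)
    have h5 : x = al k g / al k (fs k σ) ^ N := by
      rw [eq_div_iff (pow_ne_zero _ hne), hx]
    have hinv : ∀ a, sb k (code a) g = g := by
      intro a
      apply IsFractionRing.injective (SS k) (LL k)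
      have h6 := congrArg (ga k a) hx
      have h7 : ∀ P : SS k, ga k a (al k P) = al k (sb k (code a) P) := ga_algebraMap k a
      rw [map_mul, map_pow, h4 a, h7, h7, sb_fs, hx] at h6
      exact h6.symm
    have hcard : 0 < σ.card := Finset.card_pos.mpr hσ
    obtain ⟨m, hm⟩ : ∃ m, N * σ.card = m + 1 := by
      have : 0 < N * σ.card := Nat.mul_pos (by omega) hcard
      exact ⟨N * σ.card - 1, by omega⟩
    have hf' : f = fun _ => 4 * (m + 1) := by
      funext s
      have h8 := hf s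
      rw [← hm]
      have h9 : (f s : ℤ) = ((4 * (N * σ.card) : ℕ) : ℤ) := by
        rw [h8]; push_cast; ring
      exact_mod_cast h9
    rw [hf'] at hg
    have h10 := claim k h2 m g hg hinv
    rw [← hm] at h10
    rw [h5]
    exact quot_fs k σ σ (Finset.Subset.refl σ) N g h10
  · rintro ⟨y, hy, rfl⟩
    exact easy k σ y hy

end Pool.Agent.Helper30.RZ
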